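import Mathlib

/-!
# Filtrations on tensor powers and the amplification of inclusions
-/

set_option autoImplicit false

namespace Pool.Agent.U644.PW

open scoped TensorProduct

/-- The filtration on the `n`-th tensor power of `V` induced by the increasing filtration `F` of `V`: its term of index `k`
is spanned by the `x_1 ⊗ ... ⊗ x_n` with `x_i ∈ F (j_i)` and `j_1 + ... + j_n ≤ k`. -/
def conv {V : Type} [AddCommGroup V] [Module ℚ V] (F : ℤ → Submodule ℚ V) (n : ℕ) (k : ℤ) :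
    Submodule ℚ (⨂[ℚ] _ : Fin n, V) :=
  Submodule.span ℚ {t | ∃ (j : Fin n → ℤ) (x : Fin n → V), (∀ i, x i ∈ F (j i)) ∧ ∑ i, j i ≤ k ∧
    t = PiTensorProduct.tprod ℚ x}

variable {V : Type} [AddCommGroup V] [Module ℚ V]

lemma conv_mono (F : ℤ → Submodule ℚ V) (n : ℕ) {k l : ℤ} (h : k ≤ l) : conv F n k ≤ conv F n l := by
  apply Submodule.span_mono
  rintro t ⟨j, x, hx, hj, rfl⟩
  exact ⟨j, x, hx, hj.trans h, rfl⟩

lemma tpow_mem (F : ℤ → Submodule ℚ V) (n : ℕ) {a : V} {m k : ℤ} (ha : a ∈ F m) (hk : n * m ≤ k) :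
    PiTensorProduct.tprod ℚ (fun _ : Fin n => a) ∈ conv F n k := by
  apply Submodule.subset_span
  refine ⟨fun _ => m, fun _ => a, fun _ => ha, ?_, rfl⟩
  simpa using hk

/-- a linear form with value `1` at `a` which vanishes on a subspace not containing `a` -/
lemma exists_form (S : Submodule ℚ V) {a : V} (ha : a ∉ S) : ∃ φ : V →ₗ[ℚ] ℚ, φ a = 1 ∧ ∀ x ∈ S, φ x = 0 := by
  have h1 : S.mkQ a ≠ 0 := by
    intro h
    exact ha ((Submodule.Quotient.mk_eq_zero S).1 h)
  obtain ⟨ψ, hψ⟩ : ∃ ψ : Module.Dual ℚ (V ⧸ S), ψ (S.mkQ a) ≠ 0 := by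
    by_contra hcon
    push Not at hcon
    exact h1 ((Module.forall_dual_apply_eq_zero_iff ℚ (S.mkQ a)).1 hcon)
  refine ⟨(ψ (S.mkQ a))⁻¹ • (ψ.comp S.mkQ), ?_, ?_⟩
  · exact inv_mul_cancel₀ hψ
  · intro x hx
    have : S.mkQ x = 0 := (Submodule.Quotient.mk_eq_zero S).2 hx
    simp [this]

lemma tpow_not_mem (F : ℤ → Submodule ℚ V) (hF : Monotone F) (n : ℕ) {a : V} {m k : ℤ} (ha : a ∉ F m)
    (hk : k < n * (m + 1)) : PiTensorProduct.tprod ℚ (fun _ : Fin n => a) ∉ conv F n k := by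
  obtain ⟨φ, hφa, hφ⟩ := exists_form (F m) ha
  intro hmem
  let Φ : (⨂[ℚ] _ : Fin n, V) →ₗ[ℚ] ℚ :=
    PiTensorProduct.lift ((MultilinearMap.mkPiAlgebra ℚ (Fin n) ℚ).compLinearMap (fun _ => φ))
  have hΦ : ∀ t ∈ conv F n k, Φ t = 0 := by
    intro t ht
    refine Submodule.span_induction (p := fun t _ => Φ t = 0) ?_ ?_ ?_ ?_ ht
    · rintro t ⟨j, x, hx, hj, rfl⟩
      have hex : ∃ i, j i ≤ m := by
        by_contra hcon
        push Not at hcon
        have : ∑ i : Fin n, (m + 1) ≤ ∑ i, j i := Finset.sum_le_sum (fun i _ => hcon i)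
        simp only [Finset.sum_const, Finset.card_univ, Fintype.card_fin, nsmul_eq_mul] at this
        linarith
      obtain ⟨i, hi⟩ := hex
      have h0 : φ (x i) = 0 := hφ _ (hF hi (hx i))
      simp only [Φ, PiTensorProduct.lift.tprod, MultilinearMap.compLinearMap_apply, MultilinearMap.mkPiAlgebra_apply]
      exact Finset.prod_eq_zero (Finset.mem_univ i) h0
    · simp
    · intro u v _ _ hu hv
      rw [map_add, hu, hv, add_zero]
    · intro c u _ hu
      rw [map_smul, hu, smul_zero]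
  have h1 := hΦ _ hmem
  simp only [Φ, PiTensorProduct.lift.tprod, MultilinearMap.compLinearMap_apply, MultilinearMap.mkPiAlgebra_apply, hφa,
    Finset.prod_const_one] at h1
  exact one_ne_zero h1

open Filter in
/-- the amplification: an inclusion of the tensor powers up to a sublinear error gives an inclusion without error -/
lemma amplify (A B : ℤ → Submodule ℚ V) (hB : Monotone B) (f : ℕ → ℝ) (hf : Tendsto (fun n => f n / n) atTop (nhds 0))
    (c : ℝ) (h : ∀ (n : ℕ) (u v : ℤ), c * u + f n ≤ v → conv A n u ≤ conv B n v) {u v : ℤ} (huv : c * u < v + 1) :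
    A u ≤ B v := by
  intro a ha
  by_contra hna
  set δ : ℝ := (v + 1 - c * u) / 2 with hδ
  have hδ0 : 0 < δ := by rw [hδ]; linarith
  have h1 : ∀ᶠ n : ℕ in atTop, f n / n < δ := hf.eventually (gt_mem_nhds hδ0)
  have h2 : ∀ᶠ n : ℕ in atTop, 1 / δ ≤ (n : ℝ) := tendsto_natCast_atTop_atTop.eventually_ge_atTop _
  obtain ⟨n, hn1, hn2, hn3⟩ := (h1.and (h2.and (eventually_ge_atTop 1))).exists
  have hn : (0 : ℝ) < n := by exact_mod_cast hn3
  have hf1 : f n < δ * n := by rwa [div_lt_iff₀ hn] at hn1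
  have hd1 : 1 ≤ δ * n := by
    rw [div_le_iff₀ hδ0] at hn2
    linarith
  set w : ℤ := ⌈c * ((n * u : ℤ) : ℝ) + f n⌉ with hw
  have hmem : PiTensorProduct.tprod ℚ (fun _ : Fin n => a) ∈ conv B n w :=
    h n (n * u) w (Int.le_ceil _) (tpow_mem A n ha le_rfl)
  refine tpow_not_mem B hB n hna ?_ hmem
  have h3 : (w : ℝ) < c * ((n * u : ℤ) : ℝ) + f n + 1 := Int.ceil_lt_add_one _
  have h4 : (w : ℝ) < ((n * (v + 1) : ℤ) : ℝ) := by
    push_cast at h3 ⊢
    have h5 : (n : ℝ) * (v + 1) = c * (n * u) + 2 * (δ * n) := by rw [hδ]; ring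
    rw [h5]
    linarith
  exact_mod_cast h4

end Pool.Agent.U644.PW
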